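import Pool.Agent.H8.PCU.F3

/-! # Montgomery's pair correlation conjecture, with no hypothesis on the zeros, is equivalent to
its lower half for far pairs on sparse intervals, even for simple zeros on the critical line -/

set_option autoImplicit false

open Filter Topology Real

namespace Pool.Agent.Results.MP_f58427_nt.FarLowerHalf

/-- a nontrivial zero of zeta -/
def Zero (s : ℂ) : Prop := 0 < s.re ∧ s.re < 1 ∧ riemannZeta s = 0

/-- its multiplicity -/
noncomputable def mult (s : ℂ) : ℕ := analyticOrderNatAt riemannZeta s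

/-- the pairs of distinct nontrivial zeros with `0 < γ ≤ T` and `0 < γ - γ' ≤ 2πa / log T` -/
def Pairs (T a : ℝ) : Set (ℂ × ℂ) :=
  {p | Zero p.1 ∧ Zero p.2 ∧ 0 < p.1.im ∧ p.1.im ≤ T ∧ 0 < p.1.im - p.2.im ∧
    p.1.im - p.2.im ≤ 2 * π * a / Real.log T}

/-- `N*(T, a)`: the pairs are counted with multiplicity -/
noncomputable def Nstar (T a : ℝ) : ℕ := ∑ᶠ p ∈ Pairs T a, mult p.1 * mult p.2

/-- simple and on the critical line -/
def Good (s : ℂ) : Prop := s.re = 1 / 2 ∧ mult s = 1

/-- the number of the pairs in which both zeros are simple and on the critical line -/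
noncomputable def Ngood (T a : ℝ) : ℕ := {p ∈ Pairs T a | Good p.1 ∧ Good p.2}.ncard

/-- the constant of the conjecture -/
noncomputable def P (a : ℝ) : ℝ :=
  1 / (2 * π) * ∫ u in (0 : ℝ)..a, (1 - (Real.sin (π * u) / (π * u)) ^ 2)

/-- the asymptotic formula of the conjecture for a count of pairs, as `T → ∞` along `F`:
for `F = atTop` and `N = Nstar` this is the statement of Q1 -/
def Formula (F : Filter ℝ) (N : ℝ → ℝ → ℕ) : Prop :=
  ∀ a : ℝ, 0 < a → Tendsto (fun T => (N T a : ℝ) / (T * Real.log T)) F (𝓝 (P a))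

/-- a long system of intervals `[a k, a k + r k]`: consecutive, with `∑ (r k / a k) ^ 2 = ∞` -/
structure Long (a r : ℕ → ℝ) : Prop where
  pos : ∀ k, 0 < r k
  le : ∀ k, r k ≤ a k
  sep : ∀ k, a k + r k ≤ a (k + 1)
  long : ¬ Summable fun k => (r k / a k) ^ 2

/-- the lower half of the formula holds on some long system of intervals, along `F`, up to an
error exponentially small in the length of the interval -/
def LowerFar (F : Filter ℝ) (N : ℝ → ℝ → ℕ) : Prop :=
  ∃ (a r : ℕ → ℝ) (C δ : ℝ), Long a r ∧ 0 < δ ∧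
    ∀ k, ∀ x ∈ Set.Icc (a k) (a k + r k), ∀ ε : ℝ, 0 < ε → ∀ᶠ T in F,
      P x - C * Real.exp (-(δ * r k)) - ε ≤ (N T x : ℝ) / (T * Real.log T)

open Pool.Agent.H8.PCU Pool.Agent.Y744

lemma P_eq (a : ℝ) : P a = gp a / (2 * π) := by
  unfold P
  rw [gp_eq]
  ring

lemma Pairs_eq (T a : ℝ) : Pairs T a = Pset (fun _ => True) T a := by
  ext p
  unfold Pairs Pset Zero
  simp only [Set.mem_ofPred_eq, true_and]

lemma good_eq (T a : ℝ) : {p ∈ Pairs T a | Good p.1 ∧ Good p.2} =
    Pset (fun s => s.re = 1 / 2 ∧ analyticOrderNatAt riemannZeta s = 1) T a := by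
  ext p
  unfold Pairs Pset Zero Good mult
  simp only [Set.mem_ofPred_eq]
  tauto

lemma X_eq (T : ℝ) : T * Real.log T = 2 * π * Xf T := by
  have := Real.pi_pos
  unfold Xf
  field_simp

/-- the two normalisations -/
lemma ev_N {F : Filter ℝ} (hF : F ≤ atTop) {a : ℝ} (ha : 0 ≤ a) :
    ∀ᶠ T in F, (Nstar T a : ℝ) / (T * Real.log T) = (PC T (Set.Ioc 0 a) / Xf T) / (2 * π) := by
  obtain ⟨T0, -, h⟩ := Nst_eq ha
  filter_upwards [hF (eventually_ge_atTop T0), hF (eventually_gt_atTop 1)] with T hT hT1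
  have hX := Xf_pos hT1
  have hpi := Real.pi_pos
  have h1 := h T hT a le_rfl
  unfold Nstar
  rw [Pairs_eq]
  unfold mult
  rw [h1, X_eq]
  field_simp

lemma ev_G {F : Filter ℝ} (hF : F ≤ atTop) {a : ℝ} (ha : 0 ≤ a) :
    ∀ᶠ T in F, (Ngood T a : ℝ) / (T * Real.log T) = (PG T (Set.Ioc 0 a) / Xf T) / (2 * π) := by
  obtain ⟨T0, -, h⟩ := Nsc_eq ha
  filter_upwards [hF (eventually_ge_atTop T0), hF (eventually_gt_atTop 1)] with T hT hT1
  have hX := Xf_pos hT1
  have hpi := Real.pi_pos
  have h1 := h T hT a le_rfl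
  unfold Ngood
  rw [good_eq, h1, X_eq]
  field_simp

/-- the lower half for far pairs implies everything -/
lemma lower_all {F : Filter ℝ} (hF : F ≤ atTop) (h : LowerFar F Nstar) :
    Formula F Nstar ∧ Formula F Ngood := by
  have hpi := Real.pi_pos
  obtain ⟨a, r, C, δ, hl, hδ, hb⟩ := h
  have hls : LS a r := ⟨hl.pos, hl.le, hl.sep, hl.long⟩
  have ha : ∀ k, 0 < a k := fun k => (hls.pos k).trans_le (hls.le k)
  have key := crit_lower hF (C := 2 * π * |C|) (δ := δ) hls (by positivity) hδ
    (fun k x hx ε hε => by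
      have hx0 : 0 ≤ x := (ha k).le.trans hx.1
      filter_upwards [hb k x hx (ε / (2 * π)) (by positivity), ev_N hF hx0,
        hF (eventually_gt_atTop 1)] with T e1 e2 e3
      rw [e2, P_eq, Aa_eq e3 hx0] at e1
      have e4 : C * Real.exp (-(δ * r k)) ≤ |C| * Real.exp (-(δ * r k)) :=
        mul_le_mul_of_nonneg_right (le_abs_self _) (Real.exp_pos _).le
      have e5 : gp x / (2 * π) - |C| * Real.exp (-(δ * r k)) - ε / (2 * π) ≤
        (Aa T x - Aa T 0) / 2 / (2 * π) := by linarith
      have e6 := mul_le_mul_of_nonneg_left e5 (by positivity : 0 ≤ 2 * π)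
      have e7 : 2 * π * (gp x / (2 * π) - |C| * Real.exp (-(δ * r k)) - ε / (2 * π)) =
        gp x - 2 * π * |C| * Real.exp (-(δ * r k)) - ε := by field_simp
      have e8 : 2 * π * ((Aa T x - Aa T 0) / 2 / (2 * π)) = (Aa T x - Aa T 0) / 2 := by
        field_simp
      rw [e7, e8] at e6
      exact e6)
  have hbad : Tendsto (fun T => (∑ s ∈ Zd T, mz s) / Xf T) F (𝓝 0) :=
    bad_of_lim hF (by
      have := key 0
      rwa [AG_pos le_rfl, gp_zero, mul_zero, add_zero] at this)
  constructor
  · intro x hx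
    have h1 := (conj_N hF key hx.le).div_const (2 * π)
    rw [← P_eq] at h1
    exact h1.congr' ((ev_N hF hx.le).mono fun T hT => hT.symm)
  · intro x hx
    have h1 := (conj_G hF hbad hx.le (conj_N hF key hx.le)).div_const (2 * π)
    rw [← P_eq] at h1
    exact h1.congr' ((ev_G hF hx.le).mono fun T hT => hT.symm)

lemma far_of_formula {F : Filter ℝ} {N : ℝ → ℝ → ℕ} (h : Formula F N) : LowerFar F N := by
  refine ⟨_, _, 0, 1, ⟨LS_dyadic.pos, LS_dyadic.le, LS_dyadic.sep, LS_dyadic.long⟩, one_pos,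
    fun k x hx ε hε => ?_⟩
  have hx0 : 0 < x := lt_of_lt_of_le (by positivity : (0 : ℝ) < 2 ^ k) hx.1
  have h1 := (tendsto_order.1 (h x hx0)).1 (P x - ε) (by linarith)
  filter_upwards [h1] with T hT
  rw [zero_mul, sub_zero]
  exact hT.le

lemma far_mono {F : Filter ℝ} (hF : F ≤ atTop) (h : LowerFar F Ngood) : LowerFar F Nstar := by
  have hpi := Real.pi_pos
  obtain ⟨a, r, C, δ, hl, hδ, hb⟩ := h
  have ha : ∀ k, 0 < a k := fun k => (hl.pos k).trans_le (hl.le k)
  refine ⟨a, r, C, δ, hl, hδ, fun k x hx ε hε => ?_⟩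
  have hx0 : 0 ≤ x := (ha k).le.trans hx.1
  filter_upwards [hb k x hx ε hε, ev_N hF hx0, ev_G hF hx0, hF (eventually_gt_atTop 1)] with
    T e1 e2 e3 e4
  rw [e2]
  rw [e3] at e1
  refine e1.trans ?_
  have hX := Xf_pos e4
  exact div_le_div_of_nonneg_right (div_le_div_of_nonneg_right (PG_le T _) hX.le) (by positivity)

/-- **The pair correlation conjecture is its own lower half for far pairs.**
With no hypothesis on the zeros, along every filter `F` tending to infinity, the following are
equivalent: the formula of Montgomery for all `a`; its lower half on some long system of intervals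
`a ∈ [a k, a k + r k]`; the same lower half for the pairs of simple zeros on the critical line;
the full formula for the pairs of simple zeros on the critical line. -/
theorem result (F : Filter ℝ) (hF : F ≤ atTop) :
    List.TFAE [Formula F Nstar, LowerFar F Nstar, LowerFar F Ngood, Formula F Ngood] := by
  tfae_have 1 → 2 := far_of_formula
  tfae_have 2 → 4 := fun h => (lower_all hF h).2
  tfae_have 4 → 3 := far_of_formula
  tfae_have 3 → 1 := fun h => (lower_all hF (far_mono hF h)).1
  tfae_finish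

end Pool.Agent.Results.MP_f58427_nt.FarLowerHalf
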