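import Pool.Agent.H7.LH.Out

/-!
# The mean square of the primes in short intervals over the far scales

Let `M(A, b, T)` be the mean, with the weights of Fejér, over the scales `T^A ≤ x ≤ T^b` of the mean square of
`ψ((1+δ)x) - ψ(x) - δx`, `δ = 1/T`, divided by its expected value: under the Riemann hypothesis and Montgomery's
conjecture (Gallagher and Mueller) `M(A, b, T)` tends to `1` as first `T → ∞` and then `b → ∞`.

* Without any hypothesis, `M(A, b, T) ≥ 1 - ε` for `b ≥ b₀(A, ε)` and all large `T`. In particular the upper bound of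
  Goldston and Montgomery has the right order of magnitude without the Riemann hypothesis and without the pair
  correlation conjecture.
* If the minimum is attained in the limit, that is if also `M(A, b, T) ≤ 1 + ε` for `b ≥ b₁(ε)` and all large `T`,
  then the Riemann hypothesis holds and almost all zeros are simple and well spaced: for each `ε > 0` there is `a > 0`
  such that for all large `T` the number of ordered pairs of ordinates in `(0, T]` at a distance at most
  `2πa / log T`, counted with multiplicity and the diagonal included, is at most `(1 + ε) (T / 2π) log T`.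
-/

open Filter Topology

namespace Pool.Agent.Results.MP_f58427_nt.FarScales

/-- `ψ((1 + δ) x) - ψ(x) - δ x` -/
noncomputable def D (δ x : ℝ) : ℝ := Chebyshev.psi ((1 + δ) * x) - Chebyshev.psi x - δ * x

/-- the mean over the scales `T ^ A ≤ x ≤ T ^ b` -/
noncomputable def M (A b T : ℝ) : ℝ :=
  2 * T / (b * Real.log T ^ 2) *
    ∫ x in (T ^ A)..(T ^ b), (1 - Real.log x / (b * Real.log T)) * (D (1 / T) x ^ 2 / x ^ 2)

/-- the nontrivial zeros of `ζ` with ordinate in `(0, T]` -/
def zeros (T : ℝ) : Set ℂ :=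
  {s : ℂ | 0 < s.re ∧ s.re < 1 ∧ 0 < s.im ∧ s.im ≤ T ∧ riemannZeta s = 0}

/-- the multiplicity of `s` as a zero of `ζ` -/
noncomputable def mult (s : ℂ) : ℕ := analyticOrderNatAt riemannZeta s

/-- the number of ordered pairs of ordinates in `(0, T]` with `|γ - γ'| ≤ 2πa / log T`, with multiplicity and with
the diagonal pairs -/
noncomputable def close (T a : ℝ) : ℕ :=
  ∑ᶠ s ∈ zeros T, ∑ᶠ s' ∈ {s' : ℂ | s' ∈ zeros T ∧ |s.im - s'.im| ≤ 2 * Real.pi * a / Real.log T},
    mult s * mult s'

/-- almost all zeros are simple and well spaced -/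
def EssentiallySimple : Prop := ∀ ε : ℝ, 0 < ε → ∃ a : ℝ, 0 < a ∧ ∀ᶠ T : ℝ in atTop,
  (close T a : ℝ) ≤ (1 + ε) * (T / (2 * Real.pi) * Real.log T)

theorem M_eq (A b T : ℝ) : M A b T = Pool.Agent.H7.LH.Mx A b T := by
  unfold M Pool.Agent.H7.LH.Mx
  congr 1
  refine intervalIntegral.integral_congr fun x _ => ?_
  show _ = Pool.Agent.H7.LH.Fx b T x
  unfold Pool.Agent.H7.LH.Fx
  have e : D (1 / T) x = Pool.Agent.H7.LH.Dx T x := by
    unfold D Pool.Agent.H7.LH.Dx
    have e1 : (1 + 1 / T) * x = x + x / T := by ring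
    have e2 : 1 / T * x = x / T := by ring
    rw [e1, e2]
  rw [← e]
  ring

theorem close_eq (T a : ℝ) :
    close T a = Pool.Agent.Y744.G.N T (-a) a := by
  unfold close Pool.Agent.Y744.G.N
  refine finsum_mem_congr rfl fun s _ => ?_
  have h1 : {s' : ℂ | s' ∈ zeros T ∧ |s.im - s'.im| ≤ 2 * Real.pi * a / Real.log T} =
      {s' : ℂ | s' ∈ Pool.Agent.Y744.G.zeros T ∧ 2 * Real.pi * (-a) / Real.log T ≤ s.im - s'.im ∧
        s.im - s'.im ≤ 2 * Real.pi * a / Real.log T} := by
    ext s'
    simp only [Set.mem_ofPred_eq]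
    rw [abs_le]
    have e1 : 2 * Real.pi * (-a) / Real.log T = -(2 * Real.pi * a / Real.log T) := by ring
    rw [e1]
    rfl
  rw [h1]
  rfl

/-- **The mean square of the primes over the far scales is minimal, and minimal only under RH and essential
simplicity.** -/
theorem result (A : ℝ) (hA : 0 ≤ A) :
    (∀ ε : ℝ, 0 < ε → ∃ b₀ : ℝ, ∀ b : ℝ, b₀ ≤ b → ∀ᶠ T : ℝ in atTop, 1 - ε ≤ M A b T) ∧
    ((∀ ε : ℝ, 0 < ε → ∃ b₁ : ℝ, ∀ b : ℝ, b₁ ≤ b → ∀ᶠ T : ℝ in atTop, M A b T ≤ 1 + ε) →
      RiemannHypothesis ∧ EssentiallySimple) := by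
  constructor
  · intro ε hε
    obtain ⟨b0, h⟩ := Pool.Agent.H7.LH.mean_lower hA hε
    refine ⟨b0, fun b hb => ?_⟩
    filter_upwards [h b hb, eventually_gt_atTop 1] with T h1 hT
    rw [M_eq A b T]
    exact h1
  · intro h
    have hU : Pool.Agent.H7.LH.UH A := Pool.Agent.H7.LH.UH_of hA fun ε hε => by
      obtain ⟨b1, h1⟩ := h ε hε
      refine ⟨b1, fun b hb => ?_⟩
      filter_upwards [h1 b hb, eventually_gt_atTop 1] with T h2 hT
      rw [← M_eq A b T]
      exact h2
    have RH := hU.RH hA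
    refine ⟨RH, fun ε hε => ?_⟩
    obtain ⟨y, hy, h2⟩ := Pool.Agent.H7.LH.esh RH hA hU hε
    refine ⟨y, hy, ?_⟩
    filter_upwards [h2, eventually_gt_atTop 1] with T h3 hT
    rw [close_eq T, Pool.Agent.H7.LH.N_Aa hT]
    have hX := Pool.Agent.Y744.Xf_pos hT
    calc Pool.Agent.Y744.Xf T * Pool.Agent.Y744.Aa T y ≤ Pool.Agent.Y744.Xf T * (1 + ε) :=
          mul_le_mul_of_nonneg_left h3 hX.le
      _ = _ := by
          unfold Pool.Agent.Y744.Xf
          ring

end Pool.Agent.Results.MP_f58427_nt.FarScales
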