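import Pool.Agent.H8.PCU.F3

/-! # An unconditional mean law for the pair correlation of the zeros of zeta -/

set_option autoImplicit false

open MeasureTheory Filter Topology Real

namespace Pool.Agent.Results.MP_f58427_nt.MeanLaw

/-- a nontrivial zero of zeta -/
def Zero (s : ℂ) : Prop := 0 < s.re ∧ s.re < 1 ∧ riemannZeta s = 0

/-- its multiplicity -/
noncomputable def mult (s : ℂ) : ℕ := analyticOrderNatAt riemannZeta s

/-- the pairs of nontrivial zeros with `0 < γ ≤ T` and `0 < γ - γ' ≤ 2πa / log T` -/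
def Pairs (T a : ℝ) : Set (ℂ × ℂ) :=
  {p | Zero p.1 ∧ Zero p.2 ∧ 0 < p.1.im ∧ p.1.im ≤ T ∧ 0 < p.1.im - p.2.im ∧
    p.1.im - p.2.im ≤ 2 * π * a / Real.log T}

/-- `N*(T, a)`: the pairs are counted with multiplicity -/
noncomputable def Nstar (T a : ℝ) : ℕ := ∑ᶠ p ∈ Pairs T a, mult p.1 * mult p.2

/-- the pairs of nontrivial zeros with `0 < γ ≤ T` and `γ = γ'` (the case `ρ = ρ'` included) -/
def Equal (T : ℝ) : Set (ℂ × ℂ) :=
  {p | Zero p.1 ∧ Zero p.2 ∧ 0 < p.1.im ∧ p.1.im ≤ T ∧ p.1.im = p.2.im}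

/-- `D(T)`: their number, with multiplicity -/
noncomputable def Diag (T : ℝ) : ℕ := ∑ᶠ p ∈ Equal T, mult p.1 * mult p.2

/-- the constant of the conjecture -/
noncomputable def P (a : ℝ) : ℝ :=
  1 / (2 * π) * ∫ u in (0 : ℝ)..a, (1 - (Real.sin (π * u) / (π * u)) ^ 2)

open Pool.Agent.H8.PCU Pool.Agent.Y744

lemma P_eq (a : ℝ) : P a = gp a / (2 * π) := by
  unfold P
  rw [gp_eq]
  ring

lemma Pairs_eq (T a : ℝ) : Pairs T a = Pset (fun _ => True) T a := by
  ext p
  unfold Pairs Pset Zero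
  simp only [Set.mem_ofPred_eq, true_and]

lemma X_eq (T : ℝ) : T * Real.log T = 2 * π * Xf T := by
  have := Real.pi_pos
  unfold Xf
  field_simp

lemma Diag_eq {T : ℝ} (hT : 1 < T) : (Diag T : ℝ) = PC T {x | |x| ≤ 0} := by
  classical
  have hL := Real.log_pos hT
  have hpi := Real.pi_pos
  have e : Equal T = (((Zt T ×ˢ Zt T).filter (fun p => dd T p.1 p.2 ∈ {x : ℝ | |x| ≤ 0}) :
      Finset (ℂ × ℂ)) : Set (ℂ × ℂ)) := by
    ext p
    have h0 : dd T p.1 p.2 ∈ {x : ℝ | |x| ≤ 0} ↔ p.1.im = p.2.im := by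
      rw [Set.mem_ofPred_eq, abs_nonpos_iff]
      unfold dd
      constructor
      · intro h
        rw [div_eq_zero_iff, mul_eq_zero] at h
        rcases h with (h | h) | h
        · linarith
        · linarith
        · linarith
      · intro h
        rw [h]
        simp
    rw [Finset.mem_coe, Finset.mem_filter, Finset.mem_product, h0, mem_Zt, mem_Zt]
    unfold Equal Zero
    rw [Set.mem_ofPred_eq]
    constructor
    · rintro ⟨⟨a1, a2, a3⟩, ⟨b1, b2, b3⟩, c1, c2, c3⟩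
      exact ⟨⟨⟨a1, a2, c1, c2, a3⟩, b1, b2, by linarith, by linarith, b3⟩, c3⟩
    · rintro ⟨⟨⟨a1, a2, c1, c2, a3⟩, b1, b2, d1, d2, b3⟩, c3⟩
      exact ⟨⟨a1, a2, a3⟩, ⟨b1, b2, b3⟩, c1, c2, c3⟩
  unfold Diag
  rw [e, finsum_mem_coe_finset]
  push_cast
  unfold PC
  rw [Finset.sum_filter, Finset.sum_product]
  refine Finset.sum_congr rfl fun s _ => Finset.sum_congr rfl fun s' _ => ?_
  by_cases hx : dd T s s' ∈ {x : ℝ | |x| ≤ 0}
  · rw [if_pos hx, Set.indicator_of_mem hx, mul_one]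
    rfl
  · rw [if_neg hx, Set.indicator_of_notMem hx, mul_zero]

/-- **An unconditional mean law for the pair correlation of the zeros of zeta.**
There is an absolute constant `C` such that for every `A ≥ 0` and all large `T`
the error term `N*(T, a) / (T log T) - P(a)` in the conjecture, less the constant
`(1 / (2π) - D(T) / (T log T)) / 2`, has its integral over `0 ≤ a ≤ A` at most `C`. -/
theorem result : ∃ C : ℝ, ∀ A : ℝ, 0 ≤ A → ∀ᶠ T : ℝ in atTop,
    |∫ a in (0 : ℝ)..A, ((Nstar T a : ℝ) / (T * Real.log T) - P a -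
      (1 / (2 * π) - (Diag T : ℝ) / (T * Real.log T)) / 2)| ≤ C := by
  have hpi := Real.pi_pos
  obtain ⟨C1, hC1, T1, hT1, -, hex⟩ := exists_Lm
  obtain ⟨C0, hC0, hp⟩ := Ed_prim hC1.le
  refine ⟨C0 / (4 * π) + 1, fun A hA => ?_⟩
  by_contra hcon
  rw [not_eventually] at hcon
  have hne := frequently_iff_neBot.1 hcon
  obtain ⟨g, hg⟩ := @Ultrafilter.exists_le _ _ hne
  have hgle : (g : Filter ℝ) ≤ atTop := hg.trans inf_le_left
  have hgbad := hg.trans inf_le_right
  rw [le_principal_iff] at hgbad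
  have hgbad' : ∀ᶠ T in (g : Filter ℝ), ¬ |∫ a in (0 : ℝ)..A,
      ((Nstar T a : ℝ) / (T * Real.log T) - P a -
      (1 / (2 * π) - (Diag T : ℝ) / (T * Real.log T)) / 2)| ≤ C0 / (4 * π) + 1 := hgbad
  obtain ⟨A', h⟩ := hex g hgle
  have h1 := hp g hgle A' h A hA
  -- the integral of the counting function converges
  have hw : ∀ y, |(Set.Ioc 0 A).indicator (fun _ => (1 : ℝ)) y| ≤
      (1 + A ^ 2) ^ 2 / (1 + y ^ 2) ^ 2 := by
    intro y
    by_cases hy : y ∈ Set.Ioc 0 A
    · rw [Set.indicator_of_mem hy, abs_one, le_div_iff₀ (by positivity), one_mul]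
      refine pow_le_pow_left₀ (by positivity) ?_ 2
      have := pow_le_pow_left₀ hy.1.le hy.2 2
      linarith
    · rw [Set.indicator_of_notMem hy, abs_zero]
      positivity
  have h2 := Lm_int hgle h (measurable_const.indicator measurableSet_Ioc) hw
  have e1 : ∀ f : ℝ → ℝ, ∫ y, f y * (Set.Ioc 0 A).indicator (fun _ => (1 : ℝ)) y =
      ∫ y in (0 : ℝ)..A, f y := by
    intro f
    rw [intervalIntegral.integral_of_le hA, ← integral_indicator measurableSet_Ioc]
    refine integral_congr_ae (Eventually.of_forall fun y => ?_)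
    by_cases hy : y ∈ Set.Ioc 0 A
    · show f y * (Set.Ioc 0 A).indicator (fun _ => (1 : ℝ)) y = (Set.Ioc 0 A).indicator f y
      rw [Set.indicator_of_mem hy, Set.indicator_of_mem hy, mul_one]
    · show f y * (Set.Ioc 0 A).indicator (fun _ => (1 : ℝ)) y = (Set.Ioc 0 A).indicator f y
      rw [Set.indicator_of_notMem hy, Set.indicator_of_notMem hy, mul_zero]
  simp_rw [e1] at h2
  have iG : IntervalIntegrable AG volume 0 A := by
    have : IntervalIntegrable (fun y => 1 + 2 * gp y) volume 0 A := by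
      have hc : Continuous gp := by
        unfold gp
        exact intervalIntegral.continuous_primitive (fun a b => gd_cont.intervalIntegrable _ _) 0
      exact (continuous_const.add (hc.const_mul 2)).intervalIntegrable _ _
    refine this.congr ?_
    intro y hy
    rw [Set.uIoc_of_le hA] at hy
    exact (AG_pos hy.1.le).symm
  have h3 : Tendsto (fun T => ∫ y in (0 : ℝ)..A, Ed (Aa T) y) (g : Filter ℝ)
      (𝓝 (∫ y in (0 : ℝ)..A, Ed A' y)) := by
    have e2 : ∫ y in (0 : ℝ)..A, Ed A' y = (∫ y in (0 : ℝ)..A, A' y) - ∫ y in (0 : ℝ)..A, AG y :=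
      intervalIntegral.integral_sub (h.mono.intervalIntegrable) iG
    rw [e2]
    refine (h2.sub_const _).congr' ?_
    filter_upwards [hgle (eventually_gt_atTop 1)] with T hT
    exact (intervalIntegral.integral_sub (Aa_mono hT).intervalIntegrable iG).symm
  have h4 : Tendsto (fun T => |∫ y in (0 : ℝ)..A, Ed (Aa T) y| / (4 * π)) (g : Filter ℝ)
      (𝓝 (|∫ y in (0 : ℝ)..A, Ed A' y| / (4 * π))) := h3.abs.div_const _
  have h5 : |∫ y in (0 : ℝ)..A, Ed A' y| / (4 * π) < C0 / (4 * π) + 1 := by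
    have : |∫ y in (0 : ℝ)..A, Ed A' y| / (4 * π) ≤ C0 / (4 * π) := by gcongr
    linarith
  obtain ⟨T0, -, hN⟩ := Nst_eq hA
  have b1' := (tendsto_order.1 h4).2 _ h5
  have b3' : ∀ᶠ T in (g : Filter ℝ), T0 ≤ T := hgle (eventually_ge_atTop T0)
  have b4' : ∀ᶠ T in (g : Filter ℝ), 1 < T := hgle (eventually_gt_atTop 1)
  obtain ⟨T, ⟨b1, b2⟩, b3, b4⟩ := ((b1'.and hgbad').and (b3'.and b4')).exists
  refine b2 (le_trans (le_of_eq ?_) b1.le)
  have hX := Xf_pos b4
  have e3 : ∫ a in (0 : ℝ)..A, ((Nstar T a : ℝ) / (T * Real.log T) - P a -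
      (1 / (2 * π) - (Diag T : ℝ) / (T * Real.log T)) / 2) =
      ∫ a in (0 : ℝ)..A, (1 / (4 * π)) * Ed (Aa T) a := by
    refine intervalIntegral.integral_congr fun a ha => ?_
    rw [Set.uIcc_of_le hA] at ha
    have f1 := hN T b3 a ha.2
    have f2 := Aa_eq b4 ha.1
    show (Nstar T a : ℝ) / (T * Real.log T) - P a -
      (1 / (2 * π) - (Diag T : ℝ) / (T * Real.log T)) / 2 = 1 / (4 * π) * Ed (Aa T) a
    have f3 : (Nstar T a : ℝ) = PC T (Set.Ioc 0 a) := by
      unfold Nstar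
      rw [Pairs_eq]
      exact f1
    have f4 : (Diag T : ℝ) / (2 * π * Xf T) = Aa T 0 / (2 * π) := by
      rw [Diag_eq b4]
      unfold Aa
      field_simp
    have f5 : (Nstar T a : ℝ) / (2 * π * Xf T) = (Aa T a - Aa T 0) / 2 / (2 * π) := by
      rw [← f2, f3]
      field_simp
    unfold Ed
    rw [X_eq, f4, f5, P_eq, AG_pos ha.1]
    field_simp
    ring
  rw [e3, intervalIntegral.integral_const_mul, abs_mul, abs_of_pos (by positivity)]
  ring

end Pool.Agent.Results.MP_f58427_nt.MeanLaw
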