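import Pool.Agent.H7.AC.Win
import Pool.Agent.H7.AD.Fin
import Pool.Agent.H7.AE.Fin
import Pool.Agent.H7.AF.Fin
import Pool.Agent.H7.AG.Lim01

/-!
# The mean square of the primes and the pair correlation conjecture

Let `J(a, b, T)` be the mean square of `ψ((1+δ)x) - ψ(x) - δx`, `δ = 1/T`, over the scales `T^a ≤ x ≤ T^b`, with the
measure `dx / x²`, divided by `(log T)² / T`.  Gallagher and Mueller proved that the Riemann hypothesis and
Montgomery's conjecture (Q1) imply `∫_1^X (ψ((1+δ)x) - ψ(x) - δx)² dx / x² ∼ δ (log 1/δ) (log X√δ)`,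
that is `J(0, b, T) → b - 1/2` for `b ≥ 1`, so that `J(a, b, T) → b - a` for `1 ≤ a < b`.

* `UpperWindows ↔ RH ∧ Q1`: the upper bounds `J(a, b, T) ≤ b - a + o(1)`, `1 ≤ a < b`, hold if and only if the
  Riemann hypothesis and the pair correlation conjecture are true.
* `OneLength ℓ ↔ RH ∧ Q1` for each `ℓ > 0`: the upper bounds on the windows of one length `ℓ`, and on the initial
  windows `[1, b]`, `b ≤ 1 + ℓ`, are enough.
* `AsympWindows ↔ RH ∧ Q1`: the same for the asymptotic formula `J(a, b, T) → b - a`, `1 ≤ a < b`; so its upper half,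
  even for the windows of one length, implies its lower half.
* `GallagherMueller ↔ RH ∧ Q1`: so the theorem of Gallagher and Mueller has a converse, without any hypothesis.
-/

open Filter Topology

namespace Pool.Agent.Results.MP_f58427_nt.MeanSquare

/-- `ψ((1 + δ) x) - ψ(x) - δ x` -/
noncomputable def D (δ x : ℝ) : ℝ := Chebyshev.psi ((1 + δ) * x) - Chebyshev.psi x - δ * x

/-- the mean square over the scales `T ^ a ≤ x ≤ T ^ b`, for `δ = 1 / T`, normalised -/
noncomputable def J (a b T : ℝ) : ℝ :=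
  T / Real.log T ^ 2 * ∫ x in (T ^ a)..(T ^ b), D (1 / T) x ^ 2 / x ^ 2

/-- the upper half of the asymptotic formula, on the windows of scales -/
def UpperWindows : Prop := ∀ a b : ℝ, 1 ≤ a → a < b → ∀ ε : ℝ, 0 < ε → ∀ᶠ T : ℝ in atTop,
  J a b T ≤ b - a + ε

/-- the upper half of the asymptotic formula, on the windows `[a, a + ℓ]`, `a ≥ 1`, of one length `ℓ`, and on the
initial windows `[1, b]`, `1 < b ≤ 1 + ℓ` -/
def OneLength (ℓ : ℝ) : Prop := ∀ a b : ℝ, 1 ≤ a → a < b → (b = a + ℓ ∨ (a = 1 ∧ b ≤ 1 + ℓ)) →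
  ∀ ε : ℝ, 0 < ε → ∀ᶠ T : ℝ in atTop, J a b T ≤ b - a + ε

/-- the asymptotic formula, on the windows of scales -/
def AsympWindows : Prop := ∀ a b : ℝ, 1 ≤ a → a < b →
  Tendsto (fun T : ℝ => J a b T) atTop (𝓝 (b - a))

/-- the asymptotic formula of Gallagher and Mueller:
`∫_1^X (ψ((1+δ)x) - ψ(x) - δx)² dx / x² ∼ δ (log 1/δ) (log X√δ)` for `X⁻¹ ≤ δ ≤ X^(-ε)` -/
def GallagherMueller : Prop := ∀ ε : ℝ, 0 < ε → ∀ η : ℝ, 0 < η → ∀ᶠ X : ℝ in atTop,
  ∀ δ : ℝ, X⁻¹ ≤ δ → δ ≤ X ^ (-ε) →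
    |(∫ x in (1 : ℝ)..X, D δ x ^ 2 / x ^ 2) -
        δ * Real.log (1 / δ) * Real.log (X * Real.sqrt δ)| ≤
      η * (δ * Real.log (1 / δ) * Real.log (X * Real.sqrt δ))

/-- a nontrivial zero of zeta -/
def Zero (s : ℂ) : Prop := 0 < s.re ∧ s.re < 1 ∧ riemannZeta s = 0

/-- the multiplicity of `s` as a zero of `ζ` -/
noncomputable def mult (s : ℂ) : ℕ := analyticOrderNatAt riemannZeta s

/-- the pairs of nontrivial zeros with `0 < γ ≤ T` and `0 < γ - γ' ≤ 2πa / log T` -/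
def Pairs (T a : ℝ) : Set (ℂ × ℂ) :=
  {p | Zero p.1 ∧ Zero p.2 ∧ 0 < p.1.im ∧ p.1.im ≤ T ∧ 0 < p.1.im - p.2.im ∧
    p.1.im - p.2.im ≤ 2 * Real.pi * a / Real.log T}

/-- `N*(T, a)`: the pairs are counted with multiplicity -/
noncomputable def Nstar (T a : ℝ) : ℕ := ∑ᶠ p ∈ Pairs T a, mult p.1 * mult p.2

/-- the constant of the conjecture -/
noncomputable def P (a : ℝ) : ℝ :=
  1 / (2 * Real.pi) * ∫ u in (0 : ℝ)..a, (1 - (Real.sin (Real.pi * u) / (Real.pi * u)) ^ 2)

/-- the pair correlation conjecture, Q1 -/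
def Q1 : Prop := ∀ a : ℝ, 0 < a →
  Tendsto (fun T : ℝ => (Nstar T a : ℝ) / (T * Real.log T)) atTop (𝓝 (P a))

theorem D_eq (T x : ℝ) : D (1 / T) x = Pool.Agent.H7.LH.Dx T x := by
  unfold D Pool.Agent.H7.LH.Dx
  have e1 : (1 + 1 / T) * x = x + x / T := by ring
  have e2 : 1 / T * x = x / T := by ring
  rw [e1, e2]

theorem J_eq (a b T : ℝ) : J a b T = Pool.Agent.H7.AC.Jw a b T := by
  unfold J Pool.Agent.H7.AC.Jw
  simp_rw [D_eq]

theorem Pairs_eq (T a : ℝ) : Pairs T a = Pool.Agent.H7.AC.Pset (fun _ => True) T a := by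
  ext p
  unfold Pairs Pool.Agent.H7.AC.Pset Zero
  simp only [Set.mem_ofPred_eq, true_and]

theorem Q1_of (h : ∀ y : ℝ, Tendsto (fun T => Pool.Agent.Y744.Aa T y) atTop
    (𝓝 (Pool.Agent.Y744.AG y))) : Q1 := by
  intro a ha
  have hpi := Real.pi_pos
  have h1 := (Pool.Agent.H7.AC.conj_N le_rfl h ha.le).div_const (2 * Real.pi)
  have eP : P a = Pool.Agent.Y744.gp a / (2 * Real.pi) := by
    unfold P
    rw [Pool.Agent.H7.AC.gp_eq]
    ring
  rw [eP]
  refine h1.congr' ?_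
  obtain ⟨T0, -, h2⟩ := Pool.Agent.H7.AC.Nst_eq ha.le
  filter_upwards [eventually_ge_atTop T0, eventually_gt_atTop 1] with T hT hT1
  have hX := Pool.Agent.Y744.Xf_pos hT1
  have h3 := h2 T hT a le_rfl
  unfold Nstar
  rw [Pairs_eq]
  unfold mult
  rw [h3]
  have eX : T * Real.log T = 2 * Real.pi * Pool.Agent.Y744.Xf T := by
    unfold Pool.Agent.Y744.Xf
    field_simp
  rw [eX]
  field_simp

theorem Q1_to (h : Q1) : Pool.Agent.H7.AD.QQ := by
  intro a ha
  have hpi := Real.pi_pos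
  have h1 := (h a ha).mul_const (2 * Real.pi)
  have eP : P a * (2 * Real.pi) = Pool.Agent.Y744.gp a := by
    unfold P
    rw [Pool.Agent.H7.AC.gp_eq]
    field_simp
  rw [eP] at h1
  refine h1.congr' ?_
  obtain ⟨T0, -, h2⟩ := Pool.Agent.H7.AC.Nst_eq ha.le
  filter_upwards [eventually_ge_atTop T0, eventually_gt_atTop 1] with T hT hT1
  have hX := Pool.Agent.Y744.Xf_pos hT1
  have h3 := h2 T hT a le_rfl
  unfold Nstar
  rw [Pairs_eq]
  unfold mult
  rw [h3]
  have eX : T * Real.log T = 2 * Real.pi * Pool.Agent.Y744.Xf T := by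
    unfold Pool.Agent.Y744.Xf
    field_simp
  rw [eX]
  field_simp

theorem upper_of (RH : RiemannHypothesis) (h : Q1) : UpperWindows := by
  intro a b ha hab ε hε
  filter_upwards [Pool.Agent.H7.AD.UW_of_conj RH (Q1_to h) a b ha hab ε hε] with T h1
  rwa [J_eq]

theorem asymp_of (RH : RiemannHypothesis) (h : Q1) : AsympWindows := by
  intro a b ha hab
  simp_rw [J_eq]
  exact Pool.Agent.H7.AF.Jw_lim RH (Q1_to h) ha hab

theorem upper_of_asymp (h : AsympWindows) : UpperWindows := by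
  intro a b ha hab ε hε
  filter_upwards [(h a b ha hab).eventually (eventually_lt_nhds (show b - a < b - a + ε by linarith))]
    with T h1 using h1.le

theorem one_of {ℓ : ℝ} (h : UpperWindows) : OneLength ℓ := fun a b ha hab _ => h a b ha hab

theorem one_to {ℓ : ℝ} (h : OneLength ℓ) : Pool.Agent.H7.AE.HP ℓ := by
  intro a b ha hab hor ε hε
  filter_upwards [h a b ha hab hor ε hε, eventually_gt_atTop 1] with T h1 hT
  rw [J_eq] at h1
  exact Pool.Agent.H7.AC.Wn_le hT (by linarith) hab.le h1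

theorem windows (h : UpperWindows) : Pool.Agent.H7.AC.HW := by
  refine Pool.Agent.H7.AC.UW.toHW fun a b ha hab ε hε => ?_
  filter_upwards [h a b ha hab ε hε] with T h1
  rwa [← J_eq]

theorem upper_of_GM (h : GallagherMueller) : Pool.Agent.H7.AC.HW := by
  refine Pool.Agent.H7.AC.UW.toHW (Pool.Agent.H7.AC.UW_of_lim fun b hb => ?_)
  have hb0 : 0 < b := by linarith
  rw [Metric.tendsto_nhds]
  intro ε hε
  have h1 := h (1 / b) (by positivity) (ε / (2 * b)) (by positivity)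
  have h2 : Tendsto (fun T : ℝ => T ^ b) atTop atTop := tendsto_rpow_atTop hb0
  filter_upwards [h2.eventually h1, eventually_gt_atTop 1] with T h3 hT
  have hTp : 0 < T := by linarith
  have hL : 0 < Real.log T := Real.log_pos hT
  have h4 := h3 (1 / T) (by
    rw [← Real.rpow_neg hTp.le, one_div, ← Real.rpow_neg_one]
    exact Real.rpow_le_rpow_of_exponent_le hT.le (by linarith)) (by
    rw [← Real.rpow_mul hTp.le, one_div T, ← Real.rpow_neg_one]
    refine Real.rpow_le_rpow_of_exponent_le hT.le (le_of_eq ?_)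
    field_simp)
  have e1 : Real.log (1 / (1 / T)) = Real.log T := by rw [one_div_one_div]
  have e2 : Real.log (T ^ b * Real.sqrt (1 / T)) = (b - 1 / 2) * Real.log T := by
    rw [Real.sqrt_eq_rpow, one_div, ← Real.rpow_neg_one, ← Real.rpow_mul hTp.le,
      ← Real.rpow_add hTp, Real.log_rpow hTp]
    ring
  rw [e1, e2] at h4
  have e3 : ∫ x in (1 : ℝ)..(T ^ b), D (1 / T) x ^ 2 / x ^ 2 =
      Real.log T ^ 2 / T * Pool.Agent.H7.AC.Jw 0 b T := by
    rw [← J_eq]
    unfold J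
    rw [Real.rpow_zero]
    field_simp
  have e4 : 1 / T * Real.log T * ((b - 1 / 2) * Real.log T) =
      Real.log T ^ 2 / T * (b - 1 / 2) := by ring
  rw [e3, e4, ← mul_sub, abs_mul, abs_of_pos (by positivity : 0 < Real.log T ^ 2 / T)] at h4
  have e5 : ε / (2 * b) * (Real.log T ^ 2 / T * (b - 1 / 2)) =
      Real.log T ^ 2 / T * (ε / (2 * b) * (b - 1 / 2)) := by ring
  rw [e5] at h4
  have h5 := le_of_mul_le_mul_left h4 (by positivity)
  rw [Real.dist_eq]
  refine h5.trans_lt ?_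
  have h6 : ε / (2 * b) * (b - 1 / 2) ≤ ε / (2 * b) * b :=
    mul_le_mul_of_nonneg_left (by linarith) (by positivity)
  have h7 : ε / (2 * b) * b = ε / 2 := by
    field_simp
  linarith

theorem GM_of (RH : RiemannHypothesis) (h : Q1) : GallagherMueller := by
  intro ε hε η hη
  obtain ⟨T0, hT0⟩ := (Pool.Agent.H7.AG.unif RH (Q1_to h) (B := 1 / ε)
    (half_pos hη)).exists_forall_of_atTop
  filter_upwards [(tendsto_rpow_atTop hε).eventually_ge_atTop (max T0 2), eventually_gt_atTop 1]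
    with X hX hX1 δ hδ1 hδ2
  have hXp : 0 < X := by linarith
  have hδ : 0 < δ := (inv_pos.2 hXp).trans_le hδ1
  obtain ⟨T, hTd⟩ : ∃ T, T = 1 / δ := ⟨_, rfl⟩
  have hTδ : δ = 1 / T := by rw [hTd, one_div_one_div]
  have hTp : 0 < T := by rw [hTd]; positivity
  have hTX : T ≤ X := by
    rw [hTd, div_le_iff₀ hδ]
    have := mul_le_mul_of_nonneg_left hδ1 hXp.le
    rwa [mul_inv_cancel₀ hXp.ne'] at this
  have hXT : X ^ ε ≤ T := by
    rw [hTd, le_div_iff₀ hδ]
    calc X ^ ε * δ ≤ X ^ ε * X ^ (-ε) := by gcongr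
      _ = 1 := by rw [← Real.rpow_add hXp, add_neg_cancel, Real.rpow_zero]
  have hT2 : 2 ≤ T := (le_max_right _ _).trans (hX.trans hXT)
  have hTT0 : T0 ≤ T := (le_max_left _ _).trans (hX.trans hXT)
  have hL : 0 < Real.log T := Real.log_pos (by linarith)
  obtain ⟨b, hb⟩ : ∃ b, b = Real.log X / Real.log T := ⟨_, rfl⟩
  have hTb : T ^ b = X := by
    rw [Real.rpow_def_of_pos hTp, hb, mul_div_cancel₀ _ hL.ne', Real.exp_log hXp]
  have hb1 : 1 ≤ b := by
    rw [hb, le_div_iff₀ hL, one_mul]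
    exact Real.log_le_log hTp hTX
  have hbB : b ≤ 1 / ε := by
    rw [hb, div_le_div_iff₀ hL hε, one_mul]
    have := Real.log_le_log (by positivity) hXT
    rw [Real.log_rpow hXp] at this
    linarith
  have h1 := hT0 T hTT0 b hb1 hbB
  have e1 : Real.log (1 / δ) = Real.log T := by rw [← hTd]
  have e2 : Real.log (X * Real.sqrt δ) = (b - 1 / 2) * Real.log T := by
    rw [← hTb, hTδ, Real.sqrt_eq_rpow, one_div, ← Real.rpow_neg_one, ← Real.rpow_mul hTp.le,
      ← Real.rpow_add hTp, Real.log_rpow hTp]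
    ring
  have e3 : ∫ x in (1 : ℝ)..X, D δ x ^ 2 / x ^ 2 =
      Real.log T ^ 2 / T * Pool.Agent.H7.AC.Jw 0 b T := by
    rw [← J_eq]
    unfold J
    rw [Real.rpow_zero, hTb, ← hTδ]
    field_simp
  have e4 : δ * Real.log T * ((b - 1 / 2) * Real.log T) =
      Real.log T ^ 2 / T * (b - 1 / 2) := by
    rw [hTδ]
    ring
  have hq : 0 < Real.log T ^ 2 / T := by positivity
  rw [e1, e2, e3, e4, ← mul_sub, abs_mul, abs_of_pos hq]
  refine (mul_le_mul_of_nonneg_left h1 hq.le).trans ?_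
  nlinarith [mul_nonneg (mul_nonneg hq.le hη.le) (sub_nonneg.2 hb1)]

/-- **The mean square of the primes over windows of scales, and the pair correlation conjecture.** -/
theorem result :
    (UpperWindows ↔ RiemannHypothesis ∧ Q1) ∧
    (∀ ℓ : ℝ, 0 < ℓ → (OneLength ℓ ↔ RiemannHypothesis ∧ Q1)) ∧
    (AsympWindows ↔ RiemannHypothesis ∧ Q1) ∧
    (GallagherMueller ↔ RiemannHypothesis ∧ Q1) := by
  refine ⟨⟨fun h => ⟨(windows h).RH, Q1_of (windows h).limit⟩, fun h => upper_of h.1 h.2⟩,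
    fun ℓ hℓ => ⟨fun h => ?_, fun h => one_of (upper_of h.1 h.2)⟩,
    ⟨fun h => ⟨(windows (upper_of_asymp h)).RH, Q1_of (windows (upper_of_asymp h)).limit⟩,
      fun h => asymp_of h.1 h.2⟩,
    ⟨fun h => ⟨(upper_of_GM h).RH, Q1_of (upper_of_GM h).limit⟩, fun h => GM_of h.1 h.2⟩⟩
  have h1 := one_to h
  exact ⟨h1.RH hℓ, Q1_of (h1.limit hℓ)⟩

end Pool.Agent.Results.MP_f58427_nt.MeanSquare
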